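import Pool.Agent.U517.TB.Example

/-!
# Rotated copies of a triangular lattice forming a dense forest (MP_b83ca4_nt, Q2)

For every `k`, a uniformly discrete union of `k` rotated and translated copies of the triangular
lattice is not a dense forest.

The closure of `u Λ + u' Λ` is invariant under the rotation by 60 degrees, so it is discrete or
the whole plane.  In the second case the union of the two copies is not uniformly discrete; in
the first case the two copies have their rational directions in common.
-/

set_option autoImplicit false

namespace Pool.Agent.Results.MP_b83ca4_nt.NoUniformlyDiscrete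

open Pool.Agent.U517.TB

theorem result (k : ℕ) (x : Fin k → ℂ) (θ : Fin k → ℝ) :
    ¬ (IsUnifDiscrete (TBG k x θ) ∧ IsDenseForest (TBG k x θ)) ∧
    (IsUnifDiscrete (TBG k x θ) ↔
      ∀ i j : Fin k, Complex.exp (((θ i - θ j : ℝ) : ℂ) * Complex.I) ∈ K3) :=
  ⟨not_both k x θ, ud_iff k x θ⟩

end Pool.Agent.Results.MP_b83ca4_nt.NoUniformlyDiscrete
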