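import Pool.Agent.U517.TB.Example

/-!
# Rotated copies of a triangular lattice forming a dense forest (MP_b83ca4_nt, Q1)

The smallest `k` is `2`.  A union of rotated and translated copies of the triangular lattice is a
dense forest if and only if two of the copies have no rational direction in common, and this is
an arithmetic condition on the angle between them.
-/

set_option autoImplicit false

namespace Pool.Agent.Results.MP_b83ca4_nt.SmallestNumberTwo

open Pool.Agent.U517.TB

theorem result :
    IsLeast {k : ℕ | 1 ≤ k ∧ ∃ (x : Fin k → ℂ) (θ : Fin k → ℝ), IsDenseForest (TBG k x θ)} 2 ∧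
    (∀ (k : ℕ) (x : Fin k → ℂ) (θ : Fin k → ℝ), IsDenseForest (TBG k x θ) ↔
      ∃ i j : Fin k, Complex.exp (((2 * (θ i - θ j) : ℝ) : ℂ) * Complex.I) ∉ K3) := by
  refine ⟨⟨⟨by norm_num, 0, _, example_forest 0⟩, ?_⟩, forest_iff⟩
  rintro k ⟨hk, x, θ, hF⟩
  by_contra hlt
  have hk1 : k = 1 := by omega
  subst hk1
  exact not_forest_one x θ hF

end Pool.Agent.Results.MP_b83ca4_nt.SmallestNumberTwo
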